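import Pool.Agent.T9h77.QE.ChangeE
import Pool.Agent.T9h12.QC.Extra

/-!
# (E2) the edges of the pattern outside the star cover are absorbed by `G_0`
-/

set_option autoImplicit false

namespace Pool.Agent.T9h77.QE

open Finset Pool.Agent.T9h16.QL Pool.Agent.T9h34.Q
open Pool.Agent.T9h34.QE (StChangeE StExtraE leafS)
open Pool.Agent.T9h12.QC (extra_imp)

section

variable {V : Type} [Fintype V] [DecidableEq V] {B d m j : ℕ}

/-- a critical pattern is disjoint from `G_0`. -/
theorem crit_disj {h : Finset (Sym2 V) → ℝ} (hh : Monotone h) {a : ℕ} {F : Finset (Sym2 V)}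
    {A T : Finset V} (hAT : A ⊆ T) (pk : Ix B d m → Packet V B d m) (ν : V → Ix B d m → V)
    (G : Finset (Sym2 V)) (hc : Crit h (G, pk, ν) a F A T) : Disjoint F G := by
  rw [disjoint_left]
  intro e heF heG
  have h1 := hc.1 e heF
  apply absurd h1
  rw [not_lt]
  unfold phi
  apply hh
  have hix : ixBelow B d m a ⊆ ixBelow B d m (a + 1) := by
    intro i hi
    unfold ixBelow at hi ⊢
    rw [mem_filter] at hi ⊢
    exact ⟨hi.1, by omega⟩
  have hst : stage (G, pk, ν) a ⊆ stage (G, pk, ν) (a + 1) := by
    unfold stage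
    exact union_subset_union_right (biUnion_subset_biUnion_of_subset_left _ hix)
  have hma : marks (G, pk, ν) a A ⊆ marks (G, pk, ν) (a + 1) T := by
    unfold marks
    intro x hx
    rw [mem_biUnion] at hx ⊢
    obtain ⟨v, hv, hx⟩ := hx
    exact ⟨v, hAT hv, image_subset_image hix hx⟩
  intro x hx
  rw [mem_union, mem_union] at hx ⊢
  rcases hx with (hx | hx) | hx
  · exact Or.inl (Or.inl (hst hx))
  · exact Or.inl (Or.inr (hma hx))
  · by_cases hxe : x = e
    · subst hxe
      refine Or.inl (Or.inl ?_)
      unfold stage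
      exact mem_union_left _ heG
    · exact Or.inr (mem_erase.2 ⟨hxe, hx⟩)

theorem leafE_eq (φ : Fin j → V) (C : Finset (Fin j)) (par : Fin j → Fin j) :
    leafE φ par Cᶜ = (leafS C par).image (Sym2.map φ) := by
  unfold leafE leafS
  rw [image_image]
  rfl

end

theorem stExtraE_of : StChangeE → StExtraE := by
  intro hE V _ _ L a₀ B d m j a ha h hh φ hφ F C A par hAC hp pk ν
  classical
  set K := F.image (Sym2.map φ) \ leafE φ par Cᶜ with hKdef
  have hcard : K.card = (F \ leafS C par).card := by
    rw [hKdef, leafE_eq, ← image_sdiff _ _ (Sym2.map.injective hφ),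
      card_image_of_injective _ (Sym2.map.injective hφ)]
  have h1 := hE (Sym2 V) L a₀ K (fun G => CritS h (G, pk, ν) a φ C A par) ha
  rw [← hcard]
  refine le_trans (Nat.mul_le_mul_left _ ?_) h1
  refine Nat.card_le_card_of_injective
    (fun lab => ⟨lab.1, ?_, extra_imp hh hφ hp pk ν (low lab.1 a₀) lab.2⟩) ?_
  · exact disjoint_of_subset_left sdiff_subset
      (crit_disj hh (image_subset_image (subset_univ A)) pk ν (low lab.1 a₀) lab.2)
  · intro G G' hG
    exact Subtype.ext (congrArg (fun x => x.1) hG)

theorem stExtraE : StExtraE := stExtraE_of stChangeE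

end Pool.Agent.T9h77.QE
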