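import Pool.Agent.T9h34.QE.Spec

/-!
# (E) change of the labels on a set
-/

set_option autoImplicit false

namespace Pool.Agent.T9h77.QE

open Finset Pool.Agent.T9h16.QL
open Pool.Agent.T9h34.QE (StChangeE)

theorem stChangeE : StChangeE := by
  intro E _ _ L a K Θ haL
  classical
  let ov : (↥K → Fin a) → (E → Fin L) → (E → Fin L) :=
    fun r lab e => if h : e ∈ K then Fin.castLE haL (r ⟨e, h⟩) else lab e
  have hin : ∀ r lab (e : ↥K), ov r lab e.1 = Fin.castLE haL (r e) := by
    intro r lab e
    simp only [ov]
    rw [dif_pos e.2]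
  have hout : ∀ r lab e, e ∉ K → ov r lab e = lab e := by
    intro r lab e he
    simp only [ov]
    rw [dif_neg he]
  have hlow : ∀ r lab, low (ov r lab) a = low lab a ∪ K := by
    intro r lab
    ext e
    simp only [low, mem_filter, mem_univ, true_and, mem_union]
    by_cases he : e ∈ K
    · rw [hin r lab ⟨e, he⟩]
      simp [he]
    · rw [hout r lab e he]
      simp [he]
  have hge : ∀ lab : E → Fin L, Disjoint K (low lab a) → ∀ e ∈ K, a ≤ (lab e : ℕ) := by
    intro lab h e he
    by_contra h2
    push Not at h2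
    exact (disjoint_left.1 h he) (by simpa [low] using h2)
  let F : (↥K → Fin a) × {lab : E → Fin L // Disjoint K (low lab a) ∧ Θ (low lab a ∪ K)} →
      (↥K → Fin (L - a)) × {lab : E → Fin L // Θ (low lab a)} :=
    fun x => (fun e => ⟨(x.2.1 e.1 : ℕ) - a, by
        have h1 := hge x.2.1 x.2.2.1 e.1 e.2
        have h2 := (x.2.1 e.1).2
        omega⟩, ⟨ov x.1 x.2.1, by rw [hlow]; exact x.2.2.2⟩)
  have hF : Function.Injective F := by
    rintro ⟨r, lab, h⟩ ⟨r', lab', h'⟩ heq
    have h1 : ∀ e : ↥K, lab e.1 = lab' e.1 := fun e => by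
      have h0 := congrArg (fun t : Fin (L - a) => (t : ℕ)) (congrFun (congrArg Prod.fst heq) e)
      have h2 := hge lab h.1 e.1 e.2
      have h3 := hge lab' h'.1 e.1 e.2
      apply Fin.ext
      have h4 : (lab e.1 : ℕ) - a = (lab' e.1 : ℕ) - a := h0
      omega
    have h2 : ov r lab = ov r' lab' := congrArg Subtype.val (congrArg Prod.snd heq)
    have h3 : lab = lab' := by
      funext e
      by_cases he : e ∈ K
      · exact h1 ⟨e, he⟩
      · have := congrFun h2 e
        rwa [hout _ _ _ he, hout _ _ _ he] at this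
    have h4 : r = r' := by
      funext e
      have := congrFun h2 e.1
      rw [hin, hin] at this
      exact Fin.castLE_injective haL this
    subst h3
    subst h4
    rfl
  have h5 := Nat.card_le_card_of_injective F hF
  have h6 : ∀ b : ℕ, Nat.card (↥K → Fin b) = b ^ K.card := by
    intro b
    rw [Nat.card_eq_fintype_card, Fintype.card_fun, Fintype.card_fin, Fintype.card_coe]
  rw [Nat.card_prod, Nat.card_prod, h6, h6] at h5
  exact h5

end Pool.Agent.T9h77.QE
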